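import Pool.Agent.Lib.MP_b499b5_pr.Exist23

/-!
# MP_b499b5_pr : limit curtain processes of peacocks carried by a closed discrete set

For a right-continuous peacock `μ` on `[0,1]` whose measures are all carried by one set `S` that
meets each bounded interval in finitely many points (for instance `S = ℤ`), `LimCurt ([μ])` is not
empty; and for each sequence of partitions with mesh tending to `0`, the discretised curtain laws
exist and have a subsequence that converges weakly on the Skorokhod space.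
-/

set_option autoImplicit false

namespace Pool.Agent.Results.MP_b499b5_pr.DiscretePeacocks

open MeasureTheory Filter Topology Set LimCurt

/-- The mesh of the partitions tends to `0`. -/
def MeshToZero (Q : ℕ → ℕ) (t : ℕ → ℕ → I) : Prop :=
  ∀ δ : ℝ, 0 < δ → ∀ᶠ p in atTop, ∀ k < Q p, (t p (k + 1) : ℝ) - t p k ≤ δ

/-- The limit curtain processes: weak limits on the Skorokhod space of discretised curtain laws
along partitions with mesh tending to `0`. -/
def LimCurtSet (μ : I → ProbabilityMeasure ℝ) : Set (ProbabilityMeasure D) :=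
  {P' | ∃ (Q : ℕ → ℕ) (t : ℕ → ℕ → I) (P : ℕ → ProbabilityMeasure D),
    (∀ p, IsPart (Q p) (t p)) ∧ MeshToZero Q t ∧
    (∀ p, IsDisc μ (Q p) (t p) (P p : Measure D)) ∧ Tendsto P atTop (𝓝 P')}

theorem exists_partitions : ∃ (Q : ℕ → ℕ) (t : ℕ → ℕ → I), (∀ p, IsPart (Q p) (t p)) ∧
    MeshToZero Q t := by
  have hp : ∀ p : ℕ, (0 : ℝ) < (p : ℝ) + 1 := fun p => by positivity
  refine ⟨fun p => p + 1, fun p k => projIcc 0 1 zero_le_one ((k : ℝ) / ((p : ℝ) + 1)),
    fun p => ⟨?_, ?_, fun k hk => ?_⟩, fun δ hδ => ?_⟩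
  · simp
  · have h1 : (((p + 1 : ℕ) : ℝ) / ((p : ℝ) + 1)) = 1 := by
      push_cast; exact div_self (hp p).ne'
    show projIcc 0 1 zero_le_one (((p + 1 : ℕ) : ℝ) / ((p : ℝ) + 1)) = (1 : I)
    rw [h1]; simp
  · have hk1 : ((k + 1 : ℕ) : ℝ) ≤ (p : ℝ) + 1 := by exact_mod_cast hk
    have h0 : ((k : ℝ) / ((p : ℝ) + 1)) ∈ Icc (0 : ℝ) 1 :=
      ⟨by positivity, by rw [div_le_one (hp p)]; push_cast at hk1; linarith⟩
    have h1 : (((k + 1 : ℕ) : ℝ) / ((p : ℝ) + 1)) ∈ Icc (0 : ℝ) 1 :=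
      ⟨by positivity, by rw [div_le_one (hp p)]; exact hk1⟩
    show projIcc 0 1 zero_le_one ((k : ℝ) / ((p : ℝ) + 1)) <
      projIcc 0 1 zero_le_one (((k + 1 : ℕ) : ℝ) / ((p : ℝ) + 1))
    rw [projIcc_of_mem _ h0, projIcc_of_mem _ h1, Subtype.mk_lt_mk]
    exact div_lt_div_of_pos_right (by push_cast; linarith) (hp p)
  · obtain ⟨N, hN⟩ := exists_nat_gt (1 / δ)
    filter_upwards [eventually_ge_atTop N] with p hpN k _
    have h2 : ∀ x y : ℝ, x ≤ y →
        ((projIcc 0 1 zero_le_one y : I) : ℝ) - (projIcc 0 1 zero_le_one x : I) ≤ y - x := by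
      intro x y hxy
      rw [coe_projIcc, coe_projIcc]
      rcases le_total 1 x with h | h
      · rw [min_eq_left h, min_eq_left (h.trans hxy)]; simpa using hxy
      · rw [min_eq_right h]
        rcases le_total 0 x with h' | h'
        · rw [max_eq_right h']
          have : max 0 (min 1 y) ≤ y := max_le (h'.trans hxy) (min_le_right _ _)
          linarith
        · rw [max_eq_left h']
          have : max 0 (min 1 y) ≤ max 0 y := max_le_max le_rfl (min_le_right _ _)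
          rcases le_total 0 y with h'' | h''
          · rw [max_eq_right h''] at this; linarith
          · rw [max_eq_left h''] at this; linarith
    refine (h2 _ _ (div_le_div_of_nonneg_right (by push_cast; linarith) (hp p).le)).trans ?_
    have h3 : ((k + 1 : ℕ) : ℝ) / ((p : ℝ) + 1) - (k : ℝ) / ((p : ℝ) + 1) = 1 / ((p : ℝ) + 1) := by
      push_cast; ring
    rw [h3]
    have h4 : (N : ℝ) ≤ p := by exact_mod_cast hpN
    rw [div_le_iff₀ (hp p)]
    have h5 : 1 < δ * N := by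
      rw [div_lt_iff₀ hδ] at hN; linarith
    nlinarith

theorem compact (S : Set ℝ) (hS : ∀ r : ℝ, (S ∩ Icc (-r) r).Finite)
    (μ : I → ProbabilityMeasure ℝ) (hμ : Peacock μ) (hμS : ∀ s, (μ s : Measure ℝ) Sᶜ = 0)
    (Q : ℕ → ℕ) (t : ℕ → ℕ → I) (ht : ∀ p, IsPart (Q p) (t p)) (hm : MeshToZero Q t) :
    (∃ P : ℕ → ProbabilityMeasure D, ∀ p, IsDisc μ (Q p) (t p) (P p : Measure D)) ∧
    ∀ P : ℕ → ProbabilityMeasure D, (∀ p, IsDisc μ (Q p) (t p) (P p : Measure D)) →
      ∃ φ : ℕ → ℕ, StrictMono φ ∧ ∃ P' ∈ LimCurtSet μ,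
        Tendsto (fun p => P (φ p)) atTop (𝓝 P') := by
  refine ⟨?_, fun P hP => ?_⟩
  · choose P hP using fun p => Exist23.exist S hS μ hμ hμS (Q p) (t p) (ht p)
    exact ⟨P, hP⟩
  · obtain ⟨φ, hφ, P', h⟩ := Fin23.compactness S hS μ hμ hμS Q t ht hm P hP
    refine ⟨φ, hφ, P', ⟨fun p => Q (φ p), fun p => t (φ p), fun p => P (φ p), fun p => ht _,
      fun δ hδ => ?_, fun p => hP _, h⟩, h⟩
    exact hφ.tendsto_atTop.eventually (hm δ hδ)

theorem result (S : Set ℝ) (hS : ∀ r : ℝ, (S ∩ Icc (-r) r).Finite)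
    (μ : I → ProbabilityMeasure ℝ) (hμ : Peacock μ) (hμS : ∀ s, (μ s : Measure ℝ) Sᶜ = 0) :
    (LimCurtSet μ).Nonempty ∧
    ∀ (Q : ℕ → ℕ) (t : ℕ → ℕ → I), (∀ p, IsPart (Q p) (t p)) → MeshToZero Q t →
      (∃ P : ℕ → ProbabilityMeasure D, ∀ p, IsDisc μ (Q p) (t p) (P p : Measure D)) ∧
      ∀ P : ℕ → ProbabilityMeasure D, (∀ p, IsDisc μ (Q p) (t p) (P p : Measure D)) →
        ∃ φ : ℕ → ℕ, StrictMono φ ∧ ∃ P' ∈ LimCurtSet μ,
          Tendsto (fun p => P (φ p)) atTop (𝓝 P') := by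
  refine ⟨?_, fun Q t ht hm => compact S hS μ hμ hμS Q t ht hm⟩
  obtain ⟨Q, t, ht, hm⟩ := exists_partitions
  obtain ⟨⟨P, hP⟩, h⟩ := compact S hS μ hμ hμS Q t ht hm
  obtain ⟨-, -, P', hP', -⟩ := h P hP
  exact ⟨P', hP'⟩

end Pool.Agent.Results.MP_b499b5_pr.DiscretePeacocks
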